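import Pool.Agent.Helper72K.Red

/-!
# Equality modulo the Schatten classes: the answer for every exponent

This answers Q2 of the problem for all exponents at the same time.
-/

set_option autoImplicit false

open scoped InnerProductSpace

namespace Pool.Agent.Results.MP_ec05f5_lc.SchattenClassification

/-- The Borel structure on `B(H)`: the smallest one making all maps `a ↦ ⟪a ξ, η⟫` Borel. -/
noncomputable def opBorel (H : Type) [NormedAddCommGroup H] [InnerProductSpace ℂ H] :
    MeasurableSpace (H →L[ℂ] H) :=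
  ⨆ q : H × H, MeasurableSpace.comap (fun a : H →L[ℂ] H => ⟪a q.1, q.2⟫_ℂ) (borel ℂ)

/-- The Schatten class of exponent `p`: the trace of `|x|^p`, where `|x| = (x* x)^(1/2)`, that is
the sum of the numbers `⟪e n, |x|^p (e n)⟫`, is finite in every orthonormal basis `e` indexed by
`ℕ`. -/
def InSchatten (p : ℝ) {H : Type} [NormedAddCommGroup H] [InnerProductSpace ℂ H] [CompleteSpace H]
    (x : H →L[ℂ] H) : Prop :=
  ∀ e : HilbertBasis ℕ ℂ H, Summable fun n => (⟪e n, (CFC.abs x ^ p) (e n)⟫_ℂ).re

/-- The relation `ℝ^ℕ / ℓ^p`. -/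
def ModLp (p : ℝ) (x y : ℕ → ℝ) : Prop := Summable fun n => |x n - y n| ^ p

/-- Let `H` be a separable infinite dimensional complex Hilbert space and `1 ≤ p < ∞`. Equality
modulo the Schatten class of exponent `p` on `B(H)` is Borel reducible to `ℝ^ℕ / ℓ^p` if and only
if `p = 2`. -/
theorem result (H : Type) [NormedAddCommGroup H] [InnerProductSpace ℂ H] [CompleteSpace H]
    [TopologicalSpace.SeparableSpace H] (hH : ¬ FiniteDimensional ℂ H) (p : ℝ) (hp : 1 ≤ p) :
    (∃ f : (H →L[ℂ] H) → (ℕ → ℝ), @Measurable _ _ (opBorel H) MeasurableSpace.pi f ∧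
      ∀ a b : H →L[ℂ] H, InSchatten p (a - b) ↔ ModLp p (f a) (f b)) ↔ p = 2 :=
  Helper72K.classify hH hp

end Pool.Agent.Results.MP_ec05f5_lc.SchattenClassification
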